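import Mathlib

set_option autoImplicit false

namespace Pool.Agent.HAN

open CategoryTheory

/-- An `A`-`A`-bimodule over the field `k`, given by operators. -/
structure Bim (k A : Type) [Field k] [Ring A] [Algebra k A] where
  X : Type
  [ac : AddCommGroup X]
  [md : Module k X]
  l : A →ₗ[k] Module.End k X
  r : A →ₗ[k] Module.End k X
  l_one : l 1 = 1
  r_one : r 1 = 1
  l_mul : ∀ a b, l (a * b) = l a * l b
  r_mul : ∀ a b, r (a * b) = r b * r a
  comm : ∀ a b x, l a (r b x) = r b (l a x)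

attribute [instance] Bim.ac Bim.md

/-- A left `A`-module over the field `k`, given by operators. -/
structure LM (k A : Type) [Field k] [Ring A] [Algebra k A] where
  X : Type
  [ac : AddCommGroup X]
  [md : Module k X]
  l : A →ₗ[k] Module.End k X
  l_one : l 1 = 1
  l_mul : ∀ a b, l (a * b) = l a * l b

attribute [instance] LM.ac LM.md

variable {k A : Type} [Field k] [Ring A] [Algebra k A]

/-- `f` is (the function of) a multilinear map. -/
def Ml (k : Type) {A X : Type} [Field k] [Ring A] [Algebra k A] [AddCommGroup X] [Module k X] {n : ℕ}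
    (f : (Fin n → A) → X) : Prop :=
  ∃ F : MultilinearMap k (fun _ : Fin n => A) X, ∀ a, F a = f a

/-- The Hochschild differential on cochains `A^n → N`. -/
def dl (N : Bim k A) {n : ℕ} (f : (Fin n → A) → N.X) : (Fin (n + 1) → A) → N.X := fun a =>
  N.l (a 0) (f (fun j : Fin n => a j.succ)) +
    (∑ i : Fin n, (-1 : k) ^ ((i : ℕ) + 1) • f (Fin.contractNth i.castSucc (fun x y : A => x * y) a)) +
    (-1 : k) ^ (n + 1) • N.r (a (Fin.last n)) (f (fun j : Fin n => a j.castSucc))

/-- Vanishing of Hochschild cohomology `H^n(A; N) = 0`. -/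
def HC (N : Bim k A) : ℕ → Prop
  | 0 => ∀ f : (Fin 0 → A) → N.X, (∀ a, dl N f a = 0) → ∀ a, f a = 0
  | m + 1 => ∀ f : (Fin (m + 1) → A) → N.X, Ml k f → (∀ a, dl N f a = 0) →
      ∃ g : (Fin m → A) → N.X, Ml k g ∧ ∀ a, dl N g a = f a

/-- Bimodule maps. -/
def IsHom (N N' : Bim k A) (f : N.X →ₗ[k] N'.X) : Prop :=
  (∀ a x, f (N.l a x) = N'.l a (f x)) ∧ (∀ a x, f (N.r a x) = N'.r a (f x))

/-- `0 → N' → N → N'' → 0` exact with maps `i`, `p`. -/
def SesBy (N' N N'' : Bim k A) (i : N'.X →ₗ[k] N.X) (p : N.X →ₗ[k] N''.X) : Prop :=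
  IsHom N' N i ∧ IsHom N N'' p ∧ Function.Injective i ∧ Function.Surjective p ∧
    ∀ x, p x = 0 ↔ ∃ y, i y = x

def Ses (N' N N'' : Bim k A) : Prop := ∃ i p, SesBy N' N N'' i p

/-- Left module maps. -/
def LHom (L L' : LM k A) (f : L.X →ₗ[k] L'.X) : Prop := ∀ a x, f (L.l a x) = L'.l a (f x)

/-- `0 → L' → L → L'' → 0` exact sequence of left modules. -/
def LSesBy (L' L L'' : LM k A) (i : L'.X →ₗ[k] L.X) (p : L.X →ₗ[k] L''.X) : Prop :=
  LHom L' L i ∧ LHom L L'' p ∧ Function.Injective i ∧ Function.Surjective p ∧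
    ∀ x, p x = 0 ↔ ∃ y, i y = x

def LSes (L' L L'' : LM k A) : Prop := ∃ i p, LSesBy L' L L'' i p

/-- isomorphism of left modules -/
def LIso (L L' : LM k A) : Prop := ∃ e : L.X ≃ₗ[k] L'.X, ∀ a x, e (L.l a x) = L'.l a (e x)

/-- The bimodule `Hom_k(L, T)`. -/
def HomB (L T : LM k A) : Bim k A where
  X := L.X →ₗ[k] T.X
  l := LinearMap.mk₂ k (fun a f => (T.l a) ∘ₗ f)
    (fun a b f => by ext x; simp) (fun c a f => by ext x; simp)
    (fun a f g => by ext x; simp) (fun c a f => by ext x; simp)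
  r := LinearMap.mk₂ k (fun a f => f ∘ₗ (L.l a))
    (fun a b f => by ext x; simp) (fun c a f => by ext x; simp)
    (fun a f g => by ext x; simp) (fun c a f => by ext x; simp)
  l_one := by ext f x; simp [T.l_one]
  r_one := by ext f x; simp [L.l_one]
  l_mul a b := by ext f x; simp [T.l_mul]
  r_mul a b := by ext f x; simp [L.l_mul]
  comm a b f := by ext x; simp

/-- `Ext^n_A(L, T) = 0`. -/
def EX (L T : LM k A) (n : ℕ) : Prop := HC (HomB L T) n

/-- projective left modules: retracts of free modules. -/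
def IsProj (P : LM k A) : Prop :=
  ∃ (I : Type) (i : P.X →ₗ[k] (I →₀ A)) (s : (I →₀ A) →ₗ[k] P.X),
    (∀ a x, i (P.l a x) = a • i x) ∧ (∀ a x, s (a • x) = P.l a (s x)) ∧ ∀ x, s (i x) = x

/-- The dual bimodule `D A = Hom_k(A, k)`: `(a φ)(c) = φ (c a)`, `(φ a)(c) = φ (a c)`. -/
def DA (k A : Type) [Field k] [Ring A] [Algebra k A] : Bim k A where
  X := Module.Dual k A
  l := LinearMap.mk₂ k (fun a f => f ∘ₗ (LinearMap.mulRight k a))
    (fun a b f => by ext x; simp [mul_add]) (fun c a f => by ext x; simp)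
    (fun a f g => by ext x; simp) (fun c a f => by ext x; simp)
  r := LinearMap.mk₂ k (fun a f => f ∘ₗ (LinearMap.mulLeft k a))
    (fun a b f => by ext x; simp [add_mul]) (fun c a f => by ext x; simp)
    (fun a f g => by ext x; simp) (fun c a f => by ext x; simp)
  l_one := by ext f x; simp
  r_one := by ext f x; simp
  l_mul a b := by ext f x; simp [mul_assoc]
  r_mul a b := by ext f x; simp [mul_assoc]
  comm a b f := by ext x; simp [mul_assoc]

/-- A left module as an object of `ModuleCat A`. -/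
def LM.toMod (L : LM k A) : ModuleCat.{0} A :=
  letI : Module A L.X :=
    { smul := fun a x => L.l a x
      one_smul := fun x => by show L.l 1 x = x; simp [L.l_one]
      mul_smul := fun a b x => by show L.l (a * b) x = L.l a (L.l b x); simp [L.l_mul]
      smul_zero := fun a => by show L.l a 0 = 0; simp
      smul_add := fun a x y => by show L.l a (x + y) = _; rw [map_add]; rfl
      add_smul := fun a b x => by show L.l (a + b) x = _; rw [map_add]; rfl
      zero_smul := fun x => by show L.l 0 x = 0; simp }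
  ModuleCat.of A L.X

/-! ### generic statements -/

/-- G0 -/
def S_G0 : Prop := ∀ (k A : Type) [Field k] [Ring A] [Algebra k A] (N : Bim k A) (n : ℕ)
  (f : (Fin n → A) → N.X), Ml k f → Ml k (dl N f) ∧ ∀ a, dl N (dl N f) a = 0

/-- G1: long exact sequence -/
def S_G1 : Prop := ∀ (k A : Type) [Field k] [Ring A] [Algebra k A] (N' N N'' : Bim k A),
  Ses N' N N'' → ∀ n : ℕ, (HC N' n → HC N'' n → HC N n) ∧ (HC N n → HC N' (n + 1) → HC N'' n) ∧
    (HC N'' n → HC N (n + 1) → HC N' (n + 1)) ∧ (HC N 0 → HC N' 0)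

/-- G1d: Hom is exact in the first variable, EX is invariant under isomorphism -/
def S_G1d : Prop := ∀ (k A : Type) [Field k] [Ring A] [Algebra k A] (L' L L'' T : LM k A),
  (LSes L' L L'' → Ses (HomB L'' T) (HomB L T) (HomB L' T)) ∧
  (LSes L' L L'' → Ses (HomB T L') (HomB T L) (HomB T L'')) ∧
  (LIso L L' → ∀ n, EX L T n → EX L' T n) ∧ (LIso L L' → ∀ n, EX T L n → EX T L' n)

/-- G2: projective modules -/
def S_G2 : Prop := ∀ (k A : Type) [Field k] [Ring A] [Algebra k A] (P T : LM k A),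
  IsProj P → ∀ n : ℕ, EX P T (n + 1)

/-- G3: increasing unions -/
def S_G3 : Prop := ∀ (k A : Type) [Field k] [Ring A] [Algebra k A] [FiniteDimensional k A]
  (N : Bim k A) (M : ℕ → Bim k A) (i : ∀ j, (M j).X →ₗ[k] N.X),
  (∀ j, IsHom (M j) N (i j)) → (∀ j, Function.Injective (i j)) →
  (∀ j, LinearMap.range (i j) ≤ LinearMap.range (i (j + 1))) → (∀ x, ∃ j, x ∈ LinearMap.range (i j)) →
  ∀ n, (∀ j, HC (M j) n) → HC N n

/-- G4: Nakayama over `k[x]`: `N` finitely generated over `k[x]`, all `x - a` injective with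
`H^n(A; N/(x-a)) = 0`; then `H^n(A; N) = 0`. -/
def S_G4 : Prop := ∀ (k A : Type) [Field k] [IsAlgClosed k] [Ring A] [Algebra k A] [FiniteDimensional k A]
  (N : Bim k A) (x : N.X →ₗ[k] N.X), IsHom N N x →
  (∃ S : Finset N.X, ∀ W : Submodule k N.X, (∀ s ∈ S, s ∈ W) → (∀ w ∈ W, x w ∈ W) → W = ⊤) →
  ∀ n : ℕ, (∀ a : k, ∃ (N'' : Bim k A) (p : N.X →ₗ[k] N''.X),
      SesBy N N N'' (x - a • LinearMap.id) p ∧ HC N'' n) → HC N n

/-- G5: bridge to the frozen Hochschild complex -/
def S_G5 : Prop := ∀ (k A : Type) [Field k] [Ring A] [Algebra k A]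
  (b : (n : ℕ) → (PiTensorProduct k (fun _ : Fin (n + 1 + 1) => A)) →ₗ[k]
            (PiTensorProduct k (fun _ : Fin (n + 1) => A))),
  (∀ (n : ℕ) (a : Fin (n + 1 + 1) → A),
            b n (PiTensorProduct.tprod k a) =
              (∑ i : Fin (n + 1),
                  (-1 : k) ^ (i : ℕ) •
                    PiTensorProduct.tprod k
                      (Fin.contractNth i.castSucc (fun x y : A => x * y) a)) +
                (-1 : k) ^ (n + 1) •
                  PiTensorProduct.tprod k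
                    ((Fin.cons (a (Fin.last (n + 1)) * a 0)
                        (fun j : Fin n => a j.succ.castSucc) : Fin (n + 1) → A))) →
  ∀ n : ℕ, HC (DA k A) (n + 1) → LinearMap.ker (b n) ≤ LinearMap.range (b (n + 1))

/-- G6: finite projective resolutions kill EX -/
def S_G6 : Prop := ∀ (k A : Type) [Field k] [Ring A] [Algebra k A] (d : ℕ) (L : LM k A),
  (∃ P : CategoryTheory.ProjectiveResolution L.toMod,
            ∀ i : ℕ, d < i → CategoryTheory.Limits.IsZero (P.complex.X i)) →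
  ∀ (T : LM k A) (n : ℕ), d < n → EX L T n

end Pool.Agent.HAN
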